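import Pool.Agent.Helper40.Ct.Goals

/-!
The limit argument for continuous fields on the cube (MP_034a88_co, packet CUBE).
-/

set_option autoImplicit false

open Finset Filter Topology

namespace Pool.Agent.Helper57.Ct

open Pool.Agent.Helper40.Ct

theorem list_sum_k {d : ℕ} {α : Type} (L : List α) (f : α → (Fin d → ℝ)) (k : Fin d) :
    (L.map f).sum k = (L.map fun y => f y k).sum := by
  induction L with
  | nil => simp
  | cons a L ih => simp [ih]

theorem list_est {α : Type} (L : List α) (c f : α → ℝ) (t ε : ℝ) (hc : ∀ y, 0 ≤ c y)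
    (hf : ∀ y ∈ L, |f y - t| ≤ ε) :
    |(L.map fun y => c y * f y).sum - (L.map c).sum * t| ≤ ε * (L.map c).sum := by
  induction L with
  | nil => simp
  | cons a L ih =>
    have h1 := ih (fun y hy => hf y (List.mem_cons_of_mem _ hy))
    have h2 := hf a (by simp)
    simp only [List.map_cons, List.sum_cons]
    have h3 : c a * f a + (L.map fun y => c y * f y).sum - (c a + (L.map c).sum) * t
      = c a * (f a - t) + ((L.map fun y => c y * f y).sum - (L.map c).sum * t) := by ring
    rw [h3]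
    refine (abs_add_le _ _).trans ?_
    rw [abs_mul, abs_of_nonneg (hc a)]
    nlinarith [mul_le_mul_of_nonneg_left h2 (hc a)]

theorem cube : APPR → GRE → CUBE := by
  intro hA hG d r hd hr hp w hw hb
  have key : ∀ n : ℕ, ∃ (x : Fin d → Fin (n + 1)) (σ : Equiv.Perm (Fin d)) (π : Fac d r)
      (c : (Fin d → ℤ) → El d r → ℝ), (∀ y e, 0 ≤ c y e) ∧
      ∀ j : Fin (r + 1),
        (∑ e ∈ univ.filter (fun e => part π e = j),
          ((frd (corner x) σ).map fun y => c y e).sum) = 1 ∧
        ∀ k, |(∑ e ∈ univ.filter (fun e => part π e = j),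
          ((frd (corner x) σ).map fun y => c y e •
            w e (fun k => (y k : ℝ) / ((n + 1 : ℕ) : ℝ))).sum) k| ≤
              1 / ((n + 1 : ℕ) : ℝ) := by
    intro n
    have hM : (0 : ℝ) < ((n + 1 : ℕ) : ℝ) := by positivity
    refine hA d r hd hr hp (n + 1) (by omega)
      (fun y e => w e (fun k => (y k : ℝ) / ((n + 1 : ℕ) : ℝ))) ?_
      (1 / ((n + 1 : ℕ) : ℝ)) (by positivity)
    intro y k e hy
    have hq : ∀ k', 0 ≤ (fun k => (y k : ℝ) / ((n + 1 : ℕ) : ℝ)) k' ∧
        (fun k => (y k : ℝ) / ((n + 1 : ℕ) : ℝ)) k' ≤ 1 := by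
      intro k'
      have h0 : (0 : ℝ) ≤ (y k' : ℝ) := by exact_mod_cast (hy k').1
      have h1 : (y k' : ℝ) ≤ ((n + 1 : ℕ) : ℝ) := by exact_mod_cast (hy k').2
      refine ⟨?_, ?_⟩
      · show (0 : ℝ) ≤ (y k' : ℝ) / ((n + 1 : ℕ) : ℝ)
        positivity
      · show (y k' : ℝ) / ((n + 1 : ℕ) : ℝ) ≤ 1
        rw [div_le_one hM]
        exact h1
    obtain ⟨ha, hb'⟩ := hb e (fun k => (y k : ℝ) / ((n + 1 : ℕ) : ℝ)) k hq
    refine ⟨fun h => ha ?_, fun h => hb' ?_⟩
    · simp [h]
    · show (y k : ℝ) / ((n + 1 : ℕ) : ℝ) = 1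
      rw [h]
      have : (((n + 1 : ℕ) : ℤ) : ℝ) = ((n + 1 : ℕ) : ℝ) := by push_cast; ring
      rw [this]
      exact div_self hM.ne'
  choose x σ π c hc h1 using key
  -- the points
  let Q : ℕ → (Fin d → ℝ) := fun n k => (((x n k : ℕ) : ℝ)) / ((n + 1 : ℕ) : ℝ)
  let B : ℕ → (El d r → ℝ) := fun n e => ((frd (corner (x n)) (σ n)).map fun y => c n y e).sum
  have hQ : ∀ n, Q n ∈ Set.pi Set.univ (fun _ : Fin d => Set.Icc (0 : ℝ) 1) := by
    intro n k _
    have hM : (0 : ℝ) < ((n + 1 : ℕ) : ℝ) := by positivity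
    refine ⟨?_, ?_⟩
    · show (0 : ℝ) ≤ (((x n k : ℕ) : ℝ)) / ((n + 1 : ℕ) : ℝ)
      positivity
    · show (((x n k : ℕ) : ℝ)) / ((n + 1 : ℕ) : ℝ) ≤ 1
      rw [div_le_one hM]
      exact_mod_cast (x n k).2.le
  have hB0 : ∀ n e, 0 ≤ B n e := by
    intro n e
    refine List.sum_nonneg ?_
    intro t ht
    obtain ⟨y, _, rfl⟩ := List.mem_map.1 ht
    exact hc n y e
  have hB1 : ∀ n (j : Fin (r + 1)), ∑ e ∈ univ.filter (fun e => part (π n) e = j), B n e = 1 :=
    fun n j => (h1 n j).1
  have hB : ∀ n, B n ∈ Set.pi Set.univ (fun _ : El d r => Set.Icc (0 : ℝ) 1) := by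
    intro n e _
    refine ⟨hB0 n e, ?_⟩
    rw [← hB1 n (part (π n) e)]
    exact Finset.single_le_sum (f := fun e => B n e) (fun e _ => hB0 n e) (by simp)
  let F : Ultrafilter ℕ := hyperfilter ℕ
  have hF : (F : Filter ℕ) ≤ atTop := Nat.hyperfilter_le_atTop
  obtain ⟨q, hqK, hq⟩ := isCompact_iff_ultrafilter_le_nhds.1
    (isCompact_univ_pi (fun _ : Fin d => isCompact_Icc (a := (0 : ℝ)) (b := 1))) (F.map Q)
    (by
      rw [le_principal_iff, Ultrafilter.coe_map, Filter.mem_map]
      exact Filter.univ_mem' hQ)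
  obtain ⟨b, hbK, hbl⟩ := isCompact_iff_ultrafilter_le_nhds.1
    (isCompact_univ_pi (fun _ : El d r => isCompact_Icc (a := (0 : ℝ)) (b := 1))) (F.map B)
    (by
      rw [le_principal_iff, Ultrafilter.coe_map, Filter.mem_map]
      exact Filter.univ_mem' hB)
  have hQt : Tendsto Q F (𝓝 q) := hq
  have hBt : Tendsto B F (𝓝 b) := hbl
  have hπ : ∃ p : Fac d r, ∀ᶠ n in (F : Filter ℕ), π n = p := by
    by_contra hcon
    push Not at hcon
    have h2 : ∀ p : Fac d r, ∀ᶠ n in (F : Filter ℕ), π n ≠ p := by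
      intro p
      have := hcon p
      exact this
    have h3 : ∀ᶠ n in (F : Filter ℕ), ∀ p : Fac d r, π n ≠ p := eventually_all.2 h2
    obtain ⟨n, hn⟩ := h3.exists
    exact hn (π n) rfl
  obtain ⟨p, hp'⟩ := hπ
  refine ⟨q, p, fun k => ?_, fun j => ⟨b, fun e => ?_, ?_, ?_⟩⟩
  · exact hqK k (Set.mem_univ _)
  · exact (hbK e (Set.mem_univ _)).1
  · -- the sum
    have ht : Tendsto (fun n => ∑ e ∈ univ.filter (fun e => part p e = j), B n e) F
        (𝓝 (∑ e ∈ univ.filter (fun e => part p e = j), b e)) :=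
      tendsto_finsetSum _ (fun e _ => (tendsto_pi_nhds.1 hBt) e)
    have ht' : Tendsto (fun n => ∑ e ∈ univ.filter (fun e => part p e = j), B n e) F
        (𝓝 1) := by
      refine tendsto_const_nhds.congr' ?_
      filter_upwards [hp'] with n hn
      rw [← hn]
      exact (hB1 n j).symm
    exact tendsto_nhds_unique ht ht'
  · -- the vector sum
    funext k
    rw [Finset.sum_apply]
    simp only [Pi.smul_apply, smul_eq_mul, Pi.zero_apply]
    have hsm : ∀ ε : ℝ, 0 < ε →
        |∑ e ∈ univ.filter (fun e => part p e = j), b e * w e q k| ≤ ε := by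
      intro ε hε
      have ht : Tendsto (fun n => |∑ e ∈ univ.filter (fun e => part p e = j),
          B n e * w e q k|) F
          (𝓝 |∑ e ∈ univ.filter (fun e => part p e = j), b e * w e q k|) :=
        (tendsto_finsetSum _ (fun e _ => ((tendsto_pi_nhds.1 hBt) e).mul_const _)).abs
      refine le_of_tendsto ht ?_
      -- continuity at `q`
      have hcont : ∀ e : El d r, ∃ η : ℝ, 0 < η ∧ ∀ p' : Fin d → ℝ, dist p' q < η →
          |w e p' k - w e q k| ≤ ε / 2 := by
        intro e
        have hce : Continuous (fun p' => w e p' k) := (continuous_apply k).comp (hw e)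
        obtain ⟨η, hη, h⟩ := Metric.continuousAt_iff.1 hce.continuousAt (ε / 2) (by positivity)
        refine ⟨η, hη, fun p' hp' => ?_⟩
        have := h hp'
        rw [Real.dist_eq] at this
        exact this.le
      choose η hη hηw using hcont
      have he1 : ∀ e : El d r, ∀ᶠ n in (F : Filter ℕ),
          dist (Q n) q < η e / 2 := by
        intro e
        exact (tendsto_iff_dist_tendsto_zero.1 hQt).eventually
          (gt_mem_nhds (by have := hη e; positivity))
      have hinv : Tendsto (fun n : ℕ => 1 / ((n + 1 : ℕ) : ℝ)) F (𝓝 0) := by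
        have h := tendsto_one_div_add_atTop_nhds_zero_nat (𝕜 := ℝ)
        refine Tendsto.mono_left ?_ hF
        refine h.congr (fun n => ?_)
        push_cast
        ring
      have he2 : ∀ e : El d r, ∀ᶠ n in (F : Filter ℕ),
          1 / ((n + 1 : ℕ) : ℝ) < η e / 2 := fun e =>
        hinv.eventually (gt_mem_nhds (by have := hη e; positivity))
      have he3 : ∀ᶠ n in (F : Filter ℕ), 1 / ((n + 1 : ℕ) : ℝ) < ε / 2 :=
        hinv.eventually (gt_mem_nhds (by positivity))
      filter_upwards [eventually_all.2 he1, eventually_all.2 he2, he3, hp'] with n h1n h2n h3n h4n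
      have hM : (0 : ℝ) < ((n + 1 : ℕ) : ℝ) := by positivity
      have hA1 := (h1 n j).2 k
      rw [h4n] at hA1
      rw [Finset.sum_apply] at hA1
      have hest : ∀ e ∈ univ.filter (fun e => part p e = j),
          |(((frd (corner (x n)) (σ n)).map fun y => c n y e •
            w e (fun k => (y k : ℝ) / ((n + 1 : ℕ) : ℝ))).sum) k - B n e * w e q k| ≤
            ε / 2 * B n e := by
        intro e _
        rw [list_sum_k]
        refine list_est (frd (corner (x n)) (σ n)) (fun y => c n y e)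
          (fun y => w e (fun k => (y k : ℝ) / ((n + 1 : ℕ) : ℝ)) k) (w e q k) (ε / 2)
          (fun y => hc n y e) ?_
        intro y hy
        refine hηw e _ ?_
        have hd1 : dist (fun k => (y k : ℝ) / ((n + 1 : ℕ) : ℝ)) (Q n) ≤
            1 / ((n + 1 : ℕ) : ℝ) := by
          rw [dist_pi_le_iff (by positivity)]
          intro k'
          obtain ⟨g1, g2⟩ := (hG d (corner (x n)) (σ n)).2.2 y hy k'
          have g1' : ((x n k' : ℕ) : ℝ) ≤ (y k' : ℝ) := by
            have : (((x n k' : ℕ) : ℤ) : ℝ) ≤ (y k' : ℝ) := by exact_mod_cast g1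
            exact_mod_cast this
          have g2' : (y k' : ℝ) ≤ ((x n k' : ℕ) : ℝ) + 1 := by
            have : (y k' : ℝ) ≤ ((((x n k' : ℕ) : ℤ) + 1 : ℤ) : ℝ) := by exact_mod_cast g2
            push_cast at this
            exact this
          rw [Real.dist_eq]
          show |(y k' : ℝ) / ((n + 1 : ℕ) : ℝ) - (((x n k' : ℕ) : ℝ)) / ((n + 1 : ℕ) : ℝ)| ≤ _
          rw [← sub_div, abs_div, abs_of_pos hM]
          refine div_le_div_of_nonneg_right ?_ hM.le
          rw [abs_le]
          constructor <;> linarith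
        calc dist (fun k => (y k : ℝ) / ((n + 1 : ℕ) : ℝ)) q
            ≤ dist (fun k => (y k : ℝ) / ((n + 1 : ℕ) : ℝ)) (Q n) + dist (Q n) q :=
              dist_triangle _ _ _
          _ < η e / 2 + η e / 2 := add_lt_add_of_le_of_lt (hd1.trans (h2n e).le) (h1n e)
          _ = η e := by ring
      have hBp : ∑ e ∈ univ.filter (fun e => part p e = j), B n e = 1 := by
        have := hB1 n j
        rw [h4n] at this
        exact this
      have hdiff : |∑ e ∈ univ.filter (fun e => part p e = j),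
          ((((frd (corner (x n)) (σ n)).map fun y => c n y e •
            w e (fun k => (y k : ℝ) / ((n + 1 : ℕ) : ℝ))).sum) k - B n e * w e q k)| ≤
            ε / 2 := by
        refine (Finset.abs_sum_le_sum_abs _ _).trans ?_
        refine (Finset.sum_le_sum hest).trans ?_
        rw [← Finset.mul_sum, hBp, mul_one]
      rw [Finset.sum_sub_distrib] at hdiff
      rw [abs_le] at hdiff hA1 ⊢
      constructor <;> linarith [hdiff.1, hdiff.2, hA1.1, hA1.2]
    by_contra hne
    have hpos : 0 < |∑ e ∈ univ.filter (fun e => part p e = j), b e * w e q k| :=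
      abs_pos.2 hne
    have := hsm _ (half_pos hpos)
    linarith

end Pool.Agent.Helper57.Ct
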